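import Pool.Agent.Lib.MP_b07157_ag.NewtPoly

/-!
# Normal crossings: the power series and the choice of a minor
-/

noncomputable section

namespace MPb07157

open MvPolynomial

/-! ### Geometric series -/

/-- The series `∑_{k ≥ 1} u^k T^{b k}`. -/
def geoK (u : Mot) (b : ℕ) : PowerSeries Mot :=
  PowerSeries.mk fun l => if b ∣ l ∧ 0 < l then u ^ (l / b) else 0

theorem geoK_mul (u : Mot) {b : ℕ} (hb : 0 < b) :
    geoK u b * (1 - PowerSeries.C u * PowerSeries.X ^ b) =
      PowerSeries.C u * PowerSeries.X ^ b := by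
  ext l
  have e1 : geoK u b * (1 - PowerSeries.C u * PowerSeries.X ^ b) =
      geoK u b - geoK u b * PowerSeries.X ^ b * PowerSeries.C u := by ring
  rw [e1, map_sub, PowerSeries.coeff_mul_C, PowerSeries.coeff_mul_X_pow', PowerSeries.coeff_C_mul,
    PowerSeries.coeff_X_pow]
  unfold geoK
  simp only [PowerSeries.coeff_mk]
  by_cases h1 : b ≤ l
  · rw [if_pos h1]
    by_cases h2 : b ∣ l
    · obtain ⟨k, rfl⟩ := h2
      have hk : 0 < k := by
        rcases Nat.eq_zero_or_pos k with h | h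
        · subst h
          simp at h1
          omega
        · exact h
      rw [if_pos ⟨dvd_mul_right b k, Nat.mul_pos hb hk⟩, Nat.mul_div_cancel_left k hb]
      obtain ⟨j, rfl⟩ : ∃ j, k = j + 1 := ⟨k - 1, by omega⟩
      have e2 : b * (j + 1) - b = b * j := by
        rw [Nat.mul_succ]; omega
      rw [e2]
      rcases Nat.eq_zero_or_pos j with hj | hj
      · subst hj
        simp
      · rw [if_pos ⟨dvd_mul_right b j, Nat.mul_pos hb hj⟩, Nat.mul_div_cancel_left j hb,
          if_neg]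
        · ring
        · intro h
          have : b * (j + 1) = b * 1 := by rw [h, mul_one]
          have := Nat.eq_of_mul_eq_mul_left hb this
          omega
    · have h3 : ¬ b ∣ l - b := by
        intro h
        apply h2
        have := Nat.dvd_add h (dvd_refl b)
        rwa [Nat.sub_add_cancel h1] at this
      rw [if_neg (fun h => h2 h.1), if_neg (fun h => h3 h.1), if_neg]
      · ring
      · rintro rfl
        exact h2 (dvd_refl _)
  · rw [if_neg h1, if_neg, if_neg]
    · ring
    · omega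
    · rintro ⟨h2, h3⟩
      exact h1 (Nat.le_of_dvd h3 h2)

theorem geoK_mem {s₀ : ℚ} {b : ℕ} (hb : 0 < b) (h : s₀ ≠ -(1 / (b : ℚ))) :
    geoK (↑(LU⁻¹) : Mot) b ∈ regularAt s₀ := by
  obtain ⟨G, hG⟩ : ∃ G : PowerSeries Mot,
      G * (1 - PowerSeries.C (↑(LU⁻¹) : Mot) * PowerSeries.X ^ b) = 1 := by
    have h : IsUnit (1 - PowerSeries.C (↑(LU⁻¹) : Mot) * PowerSeries.X ^ b : PowerSeries Mot) := by
      rw [PowerSeries.isUnit_iff_constantCoeff]
      simp [hb.ne']
    obtain ⟨v, hv⟩ := h
    exact ⟨↑v⁻¹, by rw [← hv, Units.inv_mul]⟩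
  have h1 : G ∈ regularAt s₀ := by
    refine Algebra.subset_adjoin (Or.inr ⟨1, b, hb, ?_, ?_⟩)
    · intro h2
      apply h
      push_cast at h2
      linarith
    · rw [zpow_neg, zpow_one]
      exact hG
  have h2 : geoK (↑(LU⁻¹) : Mot) b =
      PowerSeries.C (↑(LU⁻¹) : Mot) * PowerSeries.X ^ b * G := by
    rw [← geoK_mul _ hb, mul_assoc, mul_comm _ G, hG, mul_one]
  rw [h2]
  exact mul_mem (mul_mem (C_mem_regularAt s₀ _) (pow_mem (X_mem_regularAt s₀) b)) h1

/-- The exponents `k ≥ 1` with `∑ m_i k_i = M`. -/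
def expK {J : Type} [Fintype J] [DecidableEq J] (m : J → ℕ) (M : ℕ) : Finset (J → ℕ) :=
  (Fintype.piFinset fun _ : J => Finset.Icc 1 M).filter fun k => ∑ i, m i * k i = M

theorem mem_expK {J : Type} [Fintype J] [DecidableEq J] {m : J → ℕ} (hm : ∀ i, 0 < m i) {M : ℕ}
    {k : J → ℕ} : k ∈ expK m M ↔ (∀ i, 1 ≤ k i) ∧ ∑ i, m i * k i = M := by
  unfold expK
  rw [Finset.mem_filter, Fintype.mem_piFinset]
  constructor
  · rintro ⟨h1, h2⟩
    exact ⟨fun i => (Finset.mem_Icc.1 (h1 i)).1, h2⟩
  · rintro ⟨h1, h2⟩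
    refine ⟨fun i => Finset.mem_Icc.2 ⟨h1 i, ?_⟩, h2⟩
    calc k i ≤ m i * k i := Nat.le_mul_of_pos_left _ (hm i)
      _ ≤ ∑ i, m i * k i :=
        Finset.single_le_sum (f := fun i => m i * k i) (fun _ _ => Nat.zero_le _) (Finset.mem_univ i)
      _ = M := h2

theorem coeff_prod_geoK {J : Type} [Fintype J] [DecidableEq J] (u : Mot) {m : J → ℕ}
    (hm : ∀ i, 0 < m i) (M : ℕ) :
    PowerSeries.coeff M (∏ i, geoK u (m i)) = ∑ k ∈ expK m M, u ^ (∑ i, k i) := by
  rw [PowerSeries.coeff_prod]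
  symm
  refine Finset.sum_of_injOn (fun k => Finsupp.equivFunOnFinite.symm fun i => m i * k i)
    ?_ ?_ ?_ ?_
  · intro k _ k' _ h
    funext i
    have h1 := DFunLike.congr_fun h i
    simp only [Finsupp.equivFunOnFinite_symm_apply_apply] at h1
    exact Nat.eq_of_mul_eq_mul_left (hm i) h1
  · intro k hk
    have h1 := ((mem_expK hm).1 hk).2
    rw [Finset.mem_coe, Finset.mem_finsuppAntidiag]
    refine ⟨?_, fun i _ => Finset.mem_univ i⟩
    simpa using h1
  · intro l hl hnot
    by_cases h : ∀ i, m i ∣ l i ∧ 0 < l i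
    · exfalso
      refine hnot ⟨fun i => l i / m i, ?_, ?_⟩
      · rw [Finset.mem_coe, mem_expK hm]
        refine ⟨fun i => Nat.div_pos (Nat.le_of_dvd (h i).2 (h i).1) (hm i), ?_⟩
        have h2 := (Finset.mem_finsuppAntidiag.1 hl).1
        rw [← h2]
        exact Finset.sum_congr rfl fun i _ => Nat.mul_div_cancel' (h i).1
      · ext i
        simp only [Finsupp.equivFunOnFinite_symm_apply_apply]
        exact Nat.mul_div_cancel' (h i).1
    · push Not at h
      obtain ⟨i, hi⟩ := h
      refine Finset.prod_eq_zero (Finset.mem_univ i) ?_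
      unfold geoK
      rw [PowerSeries.coeff_mk, if_neg]
      rintro ⟨h1, h2⟩
      exact absurd h2 (not_lt.2 (hi h1))
  · intro k hk
    have h1 := ((mem_expK hm).1 hk).1
    rw [← Finset.prod_pow_eq_pow_sum]
    refine Finset.prod_congr rfl fun i _ => ?_
    unfold geoK
    rw [PowerSeries.coeff_mk]
    simp only [Finsupp.equivFunOnFinite_symm_apply_apply]
    rw [if_pos ⟨dvd_mul_right _ _, Nat.mul_pos (hm i) (h1 i)⟩, Nat.mul_div_cancel_left _ (hm i)]

/-! ### A nonzero minor -/

theorem exists_minor {J : Type} [Fintype J] [DecidableEq J] {n : ℕ} (M : J → Fin n → ℂ)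
    (hM : LinearIndependent ℂ M) :
    ∃ c : J → Fin n, (Matrix.of fun i j => M i (c j)).det ≠ 0 := by
  -- the columns span
  have h1 : Submodule.span ℂ (Set.range fun (j : Fin n) (i : J) => M i j) = ⊤ := by
    have h2 : (Matrix.of M).rank = Fintype.card J := LinearIndependent.rank_matrix hM
    rw [Matrix.rank_eq_finrank_span_cols] at h2
    apply Submodule.eq_top_of_finrank_eq
    rw [Module.finrank_fintype_fun_eq_card, ← h2]
    rfl
  obtain ⟨κ, a, ha, hspan, hli⟩ := exists_linearIndependent' ℂ fun (j : Fin n) (i : J) => M i j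
  have hfin : Finite κ := Finite.of_injective a ha
  have := Fintype.ofFinite κ
  have hcard : Fintype.card κ = Fintype.card J := by
    have h3 := finrank_span_eq_card hli
    rw [hspan, h1, finrank_top, Module.finrank_fintype_fun_eq_card] at h3
    exact h3.symm
  obtain ⟨e⟩ : Nonempty (J ≃ κ) := ⟨Fintype.equivOfCardEq hcard.symm⟩
  refine ⟨fun j => a (e j), ?_⟩
  have h4 : LinearIndependent ℂ (fun (j : J) (i : J) => M i (a (e j))) :=
    hli.comp e e.injective
  have h5 : IsUnit (Matrix.of fun (j : J) (i : J) => M i (a (e j))) :=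
    Matrix.linearIndependent_rows_iff_isUnit.1 h4
  have h6 := (Matrix.isUnit_iff_isUnit_det _).1 h5
  rw [← Matrix.det_transpose] at h6
  exact h6.ne_zero

end MPb07157
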