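import Pool.Agent.Lib.MP_b07157_agK.K1a
import Pool.Agent.Lib.MP_b07157_agK.K1s

/-!
# Normal crossings: strata and the zeta function of the arcs at a constructible set
-/

noncomputable section

namespace MPb07157

open MvPolynomial

variable {n : ℕ}

/-! ### The order of a product along an arc -/

theorem constCoeff_aeval_arc {f : MvPolynomial (Fin n) ℂ} (hf : f ≠ 0) {m : ℕ}
    (γ : Fin n × Fin (m + 1) → ℂ) :
    PowerSeries.constantCoeff (aeval (arc γ) f : PowerSeries ℂ) = eval (fun i => γ (i, 0)) f := by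
  rw [← PowerSeries.coeff_zero_eq_constantCoeff_apply]
  exact coeff_zero_Fv hf γ

theorem order_prod_arc {ι : Type} [Fintype ι] {g : ι → MvPolynomial (Fin n) ℂ}
    (hg : ∀ i, g i ≠ 0) (m : ι → ℕ) {M : ℕ} (γ : Fin n × Fin (M + 1) → ℂ) (J : Finset ι)
    (hJ : ∀ i ∉ J, eval (fun j => γ (j, 0)) (g i) ≠ 0) :
    (aeval (arc γ) (∏ i, g i ^ m i) : PowerSeries ℂ).order =
      ∑ i : J, m i • (aeval (arc γ) (g i) : PowerSeries ℂ).order := by
  rw [map_prod, PowerSeries.order_prod]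
  have h1 : ∀ i ∉ J, (aeval (arc γ) (g i ^ m i) : PowerSeries ℂ).order = 0 := by
    intro i hi
    rw [map_pow]
    refine PowerSeries.order_zero_of_unit (IsUnit.pow _ ?_)
    rw [PowerSeries.isUnit_iff_constantCoeff, constCoeff_aeval_arc (hg i)]
    exact isUnit_iff_ne_zero.2 (hJ i hi)
  rw [← Finset.sum_subset (Finset.subset_univ J) fun i _ hi => h1 i hi,
    ← Finset.sum_coe_sort J]
  refine Finset.sum_congr rfl fun i _ => ?_
  rw [map_pow, PowerSeries.order_pow]

theorem arcs_stratum {ι : Type} [Fintype ι] [DecidableEq ι] {g : ι → MvPolynomial (Fin n) ℂ}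
    (hg : ∀ i, g i ≠ 0) {m : ι → ℕ} (hm : ∀ i, 0 < m i) {J : Finset ι} {W : Set (Fin n → ℂ)}
    (h0 : ∀ p ∈ W, ∀ i ∈ J, eval p (g i) = 0) (h1 : ∀ p ∈ W, ∀ i ∉ J, eval p (g i) ≠ 0) (M : ℕ) :
    arcs (∏ i, g i ^ m i) (M + 1) M ∩ AtW W M =
      ⋃ k ∈ expK (fun i : J => m i) M, ordW (fun i : J => g i) W M k := by
  have hmJ : ∀ i : J, 0 < m i := fun i => hm i
  ext γ
  simp only [Set.mem_inter_iff, Set.mem_iUnion, exists_prop]
  constructor
  · rintro ⟨h2, h3⟩
    have h4 : (aeval (arc γ) (∏ i, g i ^ m i) : PowerSeries ℂ).order = (M : ℕ∞) := h2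
    rw [order_prod_arc hg m γ J (h1 _ h3)] at h4
    have h5 : ∀ i : J, (aeval (arc γ) (g i) : PowerSeries ℂ).order ≠ ⊤ := by
      intro i hi
      have h6 : m i • (aeval (arc γ) (g i) : PowerSeries ℂ).order ≤ (M : ℕ∞) := by
        rw [← h4]
        exact Finset.single_le_sum
          (f := fun i : J => m i • (aeval (arc γ) (g i) : PowerSeries ℂ).order)
          (fun _ _ => bot_le) (Finset.mem_univ i)
      rw [hi, nsmul_eq_mul, ENat.mul_top (by exact_mod_cast (hmJ i).ne')] at h6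
      exact absurd (top_le_iff.1 h6) (ENat.natCast_ne_top M)
    choose k hk using fun i : J => ENat.ne_top_iff_exists.1 (h5 i)
    refine ⟨k, (mem_expK hmJ).2 ⟨fun i => ?_, ?_⟩, h3, fun i => (hk i).symm⟩
    · rw [Nat.one_le_iff_ne_zero]
      intro hi
      have h6 : (aeval (arc γ) (g i) : PowerSeries ℂ).order ≠ 0 := by
        rw [PowerSeries.order_ne_zero_iff_constCoeff_eq_zero, constCoeff_aeval_arc (hg i)]
        exact h0 _ h3 i i.2
      apply h6
      rw [← hk i, hi]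
      rfl
    · have h6 : ((∑ i : J, m i * k i : ℕ) : ℕ∞) = (M : ℕ∞) := by
        rw [← h4]
        push_cast
        refine Finset.sum_congr rfl fun i _ => ?_
        rw [← hk i, nsmul_eq_mul]
      exact_mod_cast h6
  · rintro ⟨k, hk, h3, h4⟩
    refine ⟨?_, h3⟩
    show (aeval (arc γ) (∏ i, g i ^ m i) : PowerSeries ℂ).order = (M : ℕ∞)
    rw [order_prod_arc hg m γ J (h1 _ h3)]
    have h6 : ((∑ i : J, m i * k i : ℕ) : ℕ∞) = (M : ℕ∞) := by
      exact_mod_cast ((mem_expK hmJ).1 hk).2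
    rw [← h6]
    push_cast
    refine Finset.sum_congr rfl fun i _ => ?_
    rw [h4 i, nsmul_eq_mul]

/-! ### The series of a set of base points -/

/-- The zeta function of the arcs with base point in `W`. -/
def seriesAt (f : MvPolynomial (Fin n) ℂ) (W : Set (Fin n → ℂ)) : PowerSeries Mot :=
  PowerSeries.mk fun M => ↑((LU ^ (n * (M + 1)))⁻¹) * clsM (arcs f (M + 1) M ∩ AtW W M)

theorem seriesAt_stratum {ι : Type} [Fintype ι] [DecidableEq ι] {g : ι → MvPolynomial (Fin n) ℂ}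
    (hg : ∀ i, g i ≠ 0) {m : ι → ℕ} (hm : ∀ i, 0 < m i) {J : Finset ι} {W : Set (Fin n → ℂ)}
    (hW : IsConstr W)
    (h0 : ∀ p ∈ W, ∀ i ∈ J, eval p (g i) = 0) (h1 : ∀ p ∈ W, ∀ i ∉ J, eval p (g i) ≠ 0)
    {c : J → Fin n} (hc : Function.Injective c)
    (hdet : ∀ p ∈ W, (Matrix.of fun (i j : J) => eval p (pderiv (c j) (g i))).det ≠ 0) :
    seriesAt (∏ i, g i ^ m i) W =
      PowerSeries.C (↑((LU ^ n)⁻¹) * clsM W * ((LU : Mot) - 1) ^ Fintype.card J) *
        ∏ i : J, geoK (↑(LU⁻¹) : Mot) (m i) := by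
  have hmJ : ∀ i : J, 0 < m i := fun i => hm i
  ext M
  rw [PowerSeries.coeff_C_mul, coeff_prod_geoK _ hmJ, seriesAt, PowerSeries.coeff_mk,
    arcs_stratum hg hm h0 h1 M, Finset.mul_sum]
  have h2 : clsM (⋃ k ∈ expK (fun i : J => m i) M, ordW (fun i : J => g i) W M k) =
      ∑ k ∈ expK (fun i : J => m i) M, clsM (ordW (fun i : J => g i) W M k) := by
    unfold clsM
    rw [cls_biUnion _ _ (fun k _ => isConstr_ordW _ hW M k), map_sum]
    intro k _ k' _ hkk'
    rw [Set.disjoint_left]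
    rintro γ ⟨-, h3⟩ ⟨-, h4⟩
    apply hkk'
    funext i
    have h5 := (h3 i).symm.trans (h4 i)
    exact_mod_cast h5
  rw [h2, Finset.mul_sum]
  refine Finset.sum_congr rfl fun k hk => ?_
  have h3 := (mem_expK hmJ).1 hk
  refine clsM_ordW hW hc (fun p hp i => h0 p hp i i.2) hdet h3.1 fun i => ?_
  calc k i ≤ m i * k i := Nat.le_mul_of_pos_left _ (hmJ i)
    _ ≤ ∑ i : J, m i * k i :=
      Finset.single_le_sum (f := fun i : J => m i * k i) (fun _ _ => Nat.zero_le _)
        (Finset.mem_univ i)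
    _ = M := h3.2

theorem seriesAt_empty (f : MvPolynomial (Fin n) ℂ) : seriesAt f ∅ = 0 := by
  ext M
  have h : arcs f (M + 1) M ∩ AtW ∅ M = ∅ := by
    ext γ
    simp [AtW]
  rw [seriesAt, PowerSeries.coeff_mk, h, map_zero]
  unfold clsM
  rw [cls_empty, map_zero, mul_zero]

theorem AtW_biUnion {α : Type} (s : Finset α) (W : α → Set (Fin n → ℂ)) (N : ℕ) :
    AtW (⋃ i ∈ s, W i) N = ⋃ i ∈ s, AtW (W i) N := by
  ext γ
  simp [AtW]

theorem seriesAt_biUnion (f : MvPolynomial (Fin n) ℂ) {α : Type} (s : Finset α)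
    (W : α → Set (Fin n → ℂ)) (hW : ∀ i ∈ s, IsConstr (W i))
    (hd : ∀ i ∈ s, ∀ j ∈ s, i ≠ j → Disjoint (W i) (W j)) :
    seriesAt f (⋃ i ∈ s, W i) = ∑ i ∈ s, seriesAt f (W i) := by
  ext M
  rw [map_sum]
  unfold seriesAt
  simp only [PowerSeries.coeff_mk]
  rw [← Finset.mul_sum, AtW_biUnion, Set.inter_iUnion₂]
  congr 1
  unfold clsM
  rw [cls_biUnion _ _ (fun i hi => (isConstr_arcs _ _ _).inter (isConstr_AtW (hW i hi) M)),
    map_sum]
  intro i hi j hj hij
  rw [Set.disjoint_left]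
  rintro γ ⟨-, h2⟩ ⟨-, h3⟩
  exact Set.disjoint_left.1 (hd i hi j hj hij) h2 h3

/-! ### Strata -/

section Strata

variable {ι : Type} [Fintype ι] [DecidableEq ι] (g : ι → MvPolynomial (Fin n) ℂ)

/-- The minor of the gradients. -/
def minorP (J : Finset ι) (c : J → Fin n) : MvPolynomial (Fin n) ℂ :=
  (Matrix.of fun (i j : J) => pderiv (c j) (g i)).det

omit [Fintype ι] in
theorem eval_minorP (J : Finset ι) (c : J → Fin n) (p : Fin n → ℂ) :
    eval p (minorP g J c) = (Matrix.of fun (i j : J) => eval p (pderiv (c j) (g i))).det := by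
  unfold minorP
  rw [RingHom.map_det]
  rfl

/-- The stratum: exactly the `g i`, `i ∈ J`, vanish and `c` is the first injection with a nonzero
minor. -/
def stratW (W : Set (Fin n → ℂ)) (x : Σ J : Finset ι, (J → Fin n)) : Set (Fin n → ℂ) :=
  {p | p ∈ W ∧ ((∀ i ∈ x.1, eval p (g i) = 0) ∧ ((∀ i ∈ x.1ᶜ, eval p (g i) ≠ 0) ∧
    (eval p (minorP g x.1 x.2) ≠ 0 ∧
      ∀ c' ∈ Finset.univ.filter (fun c' => Fintype.equivFin _ c' < Fintype.equivFin _ x.2),
        eval p (minorP g x.1 c') = 0)))}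

theorem isConstr_stratW {W : Set (Fin n → ℂ)} (hW : IsConstr W)
    (x : Σ J : Finset ι, (J → Fin n)) : IsConstr (stratW g W x) :=
  isConstr_setOf_and hW (isConstr_setOf_and (isConstr_forall_mem _ _ fun _ _ => isConstr_eq_zero _)
    (isConstr_setOf_and (isConstr_forall_mem _ _ fun _ _ => isConstr_ne_zero _)
      (isConstr_setOf_and (isConstr_ne_zero _)
        (isConstr_forall_mem _ _ fun _ _ => isConstr_eq_zero _))))

theorem disjoint_stratW (W : Set (Fin n → ℂ)) {x y : Σ J : Finset ι, (J → Fin n)} (hxy : x ≠ y) :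
    Disjoint (stratW g W x) (stratW g W y) := by
  rw [Set.disjoint_left]
  rintro p ⟨-, h1, h2, h3, h4⟩ ⟨-, h5, h6, h7, h8⟩
  obtain ⟨J, c⟩ := x
  obtain ⟨J', c'⟩ := y
  have hJ : J = J' := by
    ext i
    constructor
    · intro hi
      by_contra hcon
      exact h6 i (Finset.mem_compl.2 hcon) (h1 i hi)
    · intro hi
      by_contra hcon
      exact h2 i (Finset.mem_compl.2 hcon) (h5 i hi)
  subst hJ
  have hc : c ≠ c' := fun h => hxy (by rw [h])
  rcases lt_or_gt_of_ne (fun h => hc ((Fintype.equivFin (J → Fin n)).injective h)) with h9 | h9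
  · exact h3 (h8 c (Finset.mem_filter.2 ⟨Finset.mem_univ _, h9⟩))
  · exact h7 (h4 c' (Finset.mem_filter.2 ⟨Finset.mem_univ _, h9⟩))

theorem iUnion_stratW {W : Set (Fin n → ℂ)}
    (h : ∀ p ∈ W, LinearIndependent ℂ fun (i : {i : ι // eval p (g i) = 0}) (j : Fin n) =>
      eval p (pderiv j (g i))) :
    (⋃ x ∈ (Finset.univ : Finset (Σ J : Finset ι, (J → Fin n))), stratW g W x) = W := by
  classical
  ext p
  simp only [Set.mem_iUnion, Finset.mem_univ, exists_true_left]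
  constructor
  · rintro ⟨x, hx⟩
    exact hx.1
  · intro hp
    set J : Finset ι := Finset.univ.filter fun i => eval p (g i) = 0 with hJ
    have hJ' : ∀ i, i ∈ J ↔ eval p (g i) = 0 := fun i => by simp [hJ]
    have h1 : LinearIndependent ℂ fun (i : J) (j : Fin n) => eval p (pderiv j (g i)) :=
      (h p hp).comp (fun i : J => (⟨i, (hJ' i).1 i.2⟩ : {i : ι // eval p (g i) = 0}))
        (fun i i' hii => Subtype.ext (congrArg (fun x => x.1) hii))
    obtain ⟨c₀, hc₀⟩ := exists_minor _ h1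
    have hne : (Finset.univ.filter fun c : J → Fin n => eval p (minorP g J c) ≠ 0).Nonempty :=
      ⟨c₀, Finset.mem_filter.2 ⟨Finset.mem_univ _, by rw [eval_minorP]; exact hc₀⟩⟩
    obtain ⟨c, hc, hmin⟩ := Finset.exists_min_image _ (Fintype.equivFin (J → Fin n)) hne
    refine ⟨⟨J, c⟩, hp, fun i hi => (hJ' i).1 hi, fun i hi h2 =>
      (Finset.mem_compl.1 hi) ((hJ' i).2 h2), (Finset.mem_filter.1 hc).2, fun c' hc' => ?_⟩
    by_contra hcon
    have h2 := hmin c' (Finset.mem_filter.2 ⟨Finset.mem_univ _, hcon⟩)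
    exact absurd (Finset.mem_filter.1 hc').2 (not_lt.2 h2)

end Strata

/-- **Key theorem**: the zeta function of the arcs at a constructible set, at the points of which
the hypersurfaces `g_i = 0` are smooth and cross normally. -/
theorem seriesAt_mem_of_snc {ι : Type} [Fintype ι] {g : ι → MvPolynomial (Fin n) ℂ} {m : ι → ℕ}
    (hg : ∀ i, g i ≠ 0) (hm : ∀ i, 0 < m i) {W : Set (Fin n → ℂ)} (hW : IsConstr W)
    (h : ∀ p ∈ W, LinearIndependent ℂ fun (i : {i : ι // eval p (g i) = 0}) (j : Fin n) =>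
      eval p (pderiv j (g i)))
    {s₀ : ℚ} (hs : ∀ i, (∃ p ∈ W, eval p (g i) = 0) → s₀ ≠ -(1 / (m i : ℚ))) :
    seriesAt (∏ i, g i ^ m i) W ∈ regularAt s₀ := by
  classical
  rw [← iUnion_stratW g h, seriesAt_biUnion _ _ _ (fun x _ => isConstr_stratW g hW x)
    (fun x _ y _ hxy => disjoint_stratW g W hxy)]
  refine sum_mem fun x _ => ?_
  obtain ⟨J, c⟩ := x
  rcases (stratW g W ⟨J, c⟩).eq_empty_or_nonempty with he | ⟨p₀, hp₀⟩
  · rw [he, seriesAt_empty]
    exact zero_mem _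
  have hc : Function.Injective c := by
    intro i j hij
    by_contra hne
    apply hp₀.2.2.2.1
    rw [eval_minorP]
    exact Matrix.det_zero_of_column_eq hne fun k => by
      simp only [Matrix.of_apply]
      rw [hij]
  rw [seriesAt_stratum hg hm (isConstr_stratW g hW ⟨J, c⟩) (fun p hp => hp.2.1)
    (fun p hp i hi => hp.2.2.1 i (Finset.mem_compl.2 hi)) hc
    (fun p hp => by rw [← eval_minorP]; exact hp.2.2.2.1)]
  refine mul_mem (C_mem_regularAt s₀ _) (prod_mem fun i _ => geoK_mem (hm i) ?_)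
  exact hs i ⟨p₀, hp₀.1, hp₀.2.1 i i.2⟩

end MPb07157
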