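import Pool.Agent.Lib.MP_b07157_agK.KDefs
import Pool.Agent.Lib.MP_b07157_agK.K1b
import Pool.Agent.Lib.MP_b07157_agE.EG1

/-!
# Hypersurfaces with normal crossings outside a finite set: zeta functions

Proof.  Let `W` be a constructible subset of `Sᶜ` such that on `W` exactly the `g_i`, `i ∈ J`,
vanish and the minor of the gradients of the `g_i`, `i ∈ J`, given by an injection `c : J → Fin n`
does not vanish.  The polynomial map on the jets `γ` of length `N + 1` which replaces the coefficient
of `t^r`, `r ≥ 1`, of `γ_{c i}` by that of `g_i(γ)` is a bijection of `AtW W N` onto itself, since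
`coeff r g_i(γ) = ∑_j ∂_j g_i(p) γ_{j,r} + (terms in the γ_{j,k}, k < r)`.  So the class of the
`γ ∈ AtW W N` with `ord g_i(γ) = k_i` for `i ∈ J` (`1 ≤ k_i ≤ N`) is
`[W] (L - 1)^{|J|} L^{nN - ∑ k_i}`, and the arcs at `W` contribute
`L^{-n} [W] (L - 1)^{|J|} ∏_{i ∈ J} L^{-1} T^{m_i} / (1 - L^{-1} T^{m_i})` to the zeta function
(`J ≠ ∅`; for `J = ∅` a constant).
-/

noncomputable section

namespace MPb07157

open MvPolynomial

variable {n : ℕ}

theorem isConstr_of_finite {S : Set (Fin n → ℂ)} (hS : S.Finite) : IsConstr S := by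
  have h := isConstr_biUnion hS.toFinset (fun p => ({p} : Set (Fin n → ℂ)))
    (fun p _ => isConstr_point p)
  convert h using 1
  ext p
  simp

theorem seriesAt_univ (f : MvPolynomial (Fin n) ℂ) : seriesAt f Set.univ = Zmot f := by
  ext M
  unfold seriesAt Zmot Zcoeff
  rw [PowerSeries.coeff_mk, PowerSeries.coeff_mk]
  have h : AtW (Set.univ : Set (Fin n → ℂ)) M = Set.univ := by
    ext γ
    simp [AtW]
  rw [h, Set.inter_univ]

theorem seriesAt_singleton (f : MvPolynomial (Fin n) ℂ) (p : Fin n → ℂ) :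
    seriesAt f {p} = Zmot0 (translate p f) := by
  ext M
  unfold seriesAt Zmot0
  rw [PowerSeries.coeff_mk, PowerSeries.coeff_mk]
  exact clsM_arcs_point f p M

theorem seriesAt_union (f : MvPolynomial (Fin n) ℂ) {V W : Set (Fin n → ℂ)} (hV : IsConstr V)
    (hW : IsConstr W) (hd : Disjoint V W) : seriesAt f (V ∪ W) = seriesAt f V + seriesAt f W := by
  ext M
  rw [map_add]
  unfold seriesAt
  simp only [PowerSeries.coeff_mk]
  have h : AtW (V ∪ W) M = AtW V M ∪ AtW W M := rfl
  rw [← mul_add, h, Set.inter_union_distrib_left]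
  congr 1
  unfold clsM
  rw [cls_union ((isConstr_arcs _ _ _).inter (isConstr_AtW hV M))
    ((isConstr_arcs _ _ _).inter (isConstr_AtW hW M)), map_add]
  rw [Set.disjoint_left]
  rintro γ ⟨-, h2⟩ ⟨-, h3⟩
  exact Set.disjoint_left.1 hd h2 h3

theorem pole_of_snc {ι : Type} [Fintype ι] {g : ι → MvPolynomial (Fin n) ℂ} {m : ι → ℕ}
    (hg : ∀ i, g i ≠ 0) (hm : ∀ i, 0 < m i) {S : Set (Fin n → ℂ)} (hS : S.Finite)
    (hsnc : SncOutside g S) {s₀ : ℚ} (hp : IsPole (Zmot (prodPow g m)) s₀) :
    (∃ p ∈ S, eval p (prodPow g m) = 0 ∧ IsPole (Zmot0 (translate p (prodPow g m))) s₀) ∨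
      ∃ i, ∃ p ∉ S, eval p (g i) = 0 ∧ s₀ = -(1 / (m i : ℚ)) := by
  by_contra hcon
  push Not at hcon
  obtain ⟨h1, h2⟩ := hcon
  apply hp
  have hSc := isConstr_of_finite hS
  have e1 : Zmot (prodPow g m) = seriesAt (prodPow g m) Sᶜ + seriesAt (prodPow g m) S := by
    rw [← seriesAt_univ, ← Set.compl_union_self S, seriesAt_union _ hSc.compl hSc disjoint_compl_left]
  have e2 : seriesAt (prodPow g m) S = ∑ p ∈ hS.toFinset, seriesAt (prodPow g m) {p} := by
    rw [← seriesAt_biUnion _ _ _ (fun p _ => isConstr_point p)]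
    · congr 1
      ext p
      simp
    · intro p _ q _ hpq
      simpa using hpq
  rw [e1, e2]
  refine add_mem (seriesAt_mem_of_snc hg hm hSc.compl (fun p hpS => hsnc p hpS) ?_)
    (sum_mem fun p hpS => ?_)
  · rintro i ⟨p, hpS, hpi⟩
    exact h2 i p hpS hpi
  · rw [Set.Finite.mem_toFinset] at hpS
    by_cases h0 : eval p (prodPow g m) = 0
    · rw [seriesAt_singleton]
      have := h1 p hpS h0
      unfold IsPole at this
      exact not_not.1 this
    · have h3 : ∀ i, eval p (g i) ≠ 0 := by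
        intro i hi
        apply h0
        unfold prodPow
        rw [map_prod]
        refine Finset.prod_eq_zero (Finset.mem_univ i) ?_
        rw [map_pow, hi, zero_pow (hm i).ne']
      refine seriesAt_mem_of_snc hg hm (isConstr_point p) ?_ ?_
      · rintro q rfl
        have : IsEmpty {i : ι // eval q (g i) = 0} := ⟨fun i => h3 i i.2⟩
        exact linearIndependent_empty_type
      · rintro i ⟨q, rfl, hq⟩
        exact absurd hq (h3 i)

end MPb07157
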