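import Pool.Agent.Lib.MP_b07157_agK.KDefs

/-!
# The roots `-1/m` given by the multiplicities of the factors
-/

noncomputable section

namespace MPb07157

open MvPolynomial

variable {n : ℕ}

/-! ### The specialization `s = -1/m` -/

/-- The specialization. -/
private def spec (n m : ℕ) : MvPolynomial (Fin n) (Polynomial ℂ) →+* MvPolynomial (Fin n) ℂ :=
  MvPolynomial.map (Polynomial.evalRingHom (-(1 / (m : ℂ))))

private lemma spec_liftS (m : ℕ) (f : MvPolynomial (Fin n) ℂ) : spec n m (liftS f) = f := by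
  unfold spec liftS
  rw [MvPolynomial.map_map]
  have h : (Polynomial.evalRingHom (-(1 / (m : ℂ)))).comp Polynomial.C = RingHom.id ℂ := by
    ext a
    simp
  rw [h, MvPolynomial.map_id]

private lemma spec_pderiv (m : ℕ) (i : Fin n) (g : MvPolynomial (Fin n) (Polynomial ℂ)) :
    spec n m (pderiv i g) = pderiv i (spec n m g) := by
  unfold spec
  rw [pderiv_map]

private lemma spec_C (m : ℕ) (b : Polynomial ℂ) :
    spec n m (C b) = C (b.eval (-(1 / (m : ℂ)))) := by
  unfold spec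
  rw [map_C]
  rfl

private lemma mult_step {m k : ℕ} (hm : 0 < m) {q h g u : MvPolynomial (Fin n) ℂ}
    (hu : q ^ (m - 1) * g = q ^ (m * k) * u) (i : Fin n) :
    q ^ (m * (k + 1)) ∣ q ^ (m - 1) * (q ^ m * h * pderiv i g +
      C (-(1 / (m : ℂ)) + 1 - k) * pderiv i (q ^ m * h) * g) := by
  have hmC : (m : ℂ) ≠ 0 := by exact_mod_cast hm.ne'
  obtain ⟨l, rfl⟩ : ∃ l, m = l + 1 := ⟨m - 1, by omega⟩
  rw [Nat.add_sub_cancel] at hu ⊢
  by_cases hq : q = 0
  · refine ⟨0, ?_⟩
    rw [hq, mul_zero, zero_pow (Nat.succ_ne_zero l), zero_mul, zero_mul, map_zero, mul_zero,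
      zero_mul, add_zero, mul_zero]
  -- the derivative of the relation
  have hd := congrArg (pderiv i) hu
  rw [pderiv_mul, pderiv_mul, pderiv_pow, pderiv_pow] at hd
  have h1 : q ^ (l + 1) * pderiv i g =
      q ^ ((l + 1) * k) * ((((l + 1) * k : ℕ) : MvPolynomial (Fin n) ℂ) * pderiv i q * u -
        (l : MvPolynomial (Fin n) ℂ) * pderiv i q * u + q * pderiv i u) := by
    have e1 : q * ((l : MvPolynomial (Fin n) ℂ) * q ^ (l - 1)) = (l : MvPolynomial (Fin n) ℂ) * q ^ l := by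
      rcases Nat.eq_zero_or_pos l with rfl | hl
      · simp
      · obtain ⟨r, rfl⟩ : ∃ r, l = r + 1 := ⟨l - 1, by omega⟩
        rw [Nat.add_sub_cancel]; ring
    have e2 : q * ((((l + 1) * k : ℕ) : MvPolynomial (Fin n) ℂ) * q ^ ((l + 1) * k - 1)) =
        (((l + 1) * k : ℕ) : MvPolynomial (Fin n) ℂ) * q ^ ((l + 1) * k) := by
      rcases Nat.eq_zero_or_pos ((l + 1) * k) with hl | hl
      · rw [hl]; simp
      · obtain ⟨r, hr⟩ : ∃ r, (l + 1) * k = r + 1 := ⟨(l + 1) * k - 1, by omega⟩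
        rw [hr, Nat.add_sub_cancel]; ring
    linear_combination q * hd - (pderiv i q * g) * e1 + (pderiv i q * u) * e2 -
      (l : MvPolynomial (Fin n) ℂ) * pderiv i q * hu
  refine ⟨h * pderiv i u + C (-(1 / ((l + 1 : ℕ) : ℂ)) + 1 - k) * pderiv i h * u, ?_⟩
  have h2 : (C (-(1 / ((l + 1 : ℕ) : ℂ)) + 1 - k) : MvPolynomial (Fin n) ℂ) *
      ((l + 1 : ℕ) : MvPolynomial (Fin n) ℂ) =
      (l : MvPolynomial (Fin n) ℂ) - (((l + 1) * k : ℕ) : MvPolynomial (Fin n) ℂ) := by
    have h3 : ∀ a : ℕ, ((a : ℕ) : MvPolynomial (Fin n) ℂ) = C (a : ℂ) := fun a => by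
      rw [map_natCast]
    rw [h3, h3, h3, ← C_mul, ← C_sub]
    congr 1
    push_cast
    push_cast at hmC
    field_simp
    ring
  rw [pderiv_mul, pderiv_pow, Nat.add_sub_cancel]
  have h4 : q ^ ((l + 1) * (k + 1)) = q ^ ((l + 1) * k) * q ^ (l + 1) := by ring
  rw [h4]
  have h5 : q ^ (l + 1) = q * q ^ l := by ring
  linear_combination (q ^ l * h) * h1 +
    (C (-(1 / ((l + 1 : ℕ) : ℂ)) + 1 - (k : ℂ)) : MvPolynomial (Fin n) ℂ) *
      ((((l + 1 : ℕ) : MvPolynomial (Fin n) ℂ) * q ^ l * pderiv i q * h) + q ^ (l + 1) * pderiv i h) * hu +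
    (q ^ l * pderiv i q * h * (q ^ ((l + 1) * k) * u)) * h2

/-- At `s = -1/m` the elements of `D_n[s] f^(s+1)` have no pole along `q`. -/
private lemma spec_dvd {m : ℕ} (hm : 0 < m) {f q h : MvPolynomial (Fin n) ℂ} (hq : Prime q)
    (hf : f = q ^ m * h) (hh : ¬ q ∣ h) {k : ℕ} {g : MvPolynomial (Fin n) (Polynomial ℂ)}
    (hg : InDn f k g) : q ^ (m * k) ∣ q ^ (m - 1) * spec n m g := by
  induction hg with
  | base => rw [mul_zero, pow_zero]; exact one_dvd _
  | add _ _ h1 h2 => rw [map_add, mul_add]; exact dvd_add h1 h2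
  | mul c _ h1 =>
    rw [map_mul, mul_left_comm]
    exact h1.mul_left _
  | @deriv k g i _ h1 =>
    obtain ⟨u, hu⟩ := h1
    have h2 := mult_step (h := h) hm hu i
    rw [map_add, map_mul, map_mul, map_mul, spec_liftS, spec_liftS, spec_pderiv, spec_C, hf]
    have h3 : (Polynomial.X + 1 - (k : Polynomial ℂ)).eval (-(1 / (m : ℂ))) =
        -(1 / (m : ℂ)) + 1 - k := by simp
    rw [h3]
    exact h2
  | @raise k g _ h1 =>
    rw [map_mul, spec_liftS, hf]
    have h2 : q ^ (m - 1) * (q ^ m * h * spec n m g) = q ^ m * (q ^ (m - 1) * spec n m g) * h := by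
      ring
    have h3 : q ^ (m * (k + 1)) = q ^ m * q ^ (m * k) := by ring
    rw [h2, h3]
    exact (mul_dvd_mul_left _ h1).mul_right _
  | @lower k g _ h1 =>
    rw [map_mul, spec_liftS, hf] at h1
    have h2 : q ^ (m - 1) * (q ^ m * h * spec n m g) =
        q ^ m * (h * (q ^ (m - 1) * spec n m g)) := by ring
    have h3 : q ^ (m * (k + 1)) = q ^ m * q ^ (m * k) := by ring
    rw [h2, h3] at h1
    have h4 := (mul_dvd_mul_iff_left (pow_ne_zero m hq.ne_zero)).1 h1
    exact hq.pow_dvd_of_dvd_mul_left _ hh h4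

/-- If the irreducible polynomial `q` occurs in `f` with multiplicity exactly `m ≥ 1`, then `-1/m` is
a root of the Bernstein–Sato polynomial.

Proof.  Write `f = q^m h`, `q ∤ h`.  For all `g` with `InDn f k g` the value of `q^(m-1) g` at
`s = -1/m` is divisible by `q^(m k)`.  For `k = 1` and `g = C b` we get `q ∣ C (b(-1/m))`. -/
theorem root_of_mult {f q : MvPolynomial (Fin n) ℂ} (hq : Irreducible q) {m : ℕ} (hm : 0 < m)
    (h1 : q ^ m ∣ f) (h2 : ¬ q ^ (m + 1) ∣ f) : IsBernsteinSatoRoot f (-(1 / (m : ℚ))) := by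
  intro b hb
  have hqp : Prime q := hq.prime
  obtain ⟨h, hf⟩ := h1
  have hh : ¬ q ∣ h := by
    rintro ⟨c, rfl⟩
    exact h2 ⟨c, by rw [hf]; ring⟩
  have h3 := spec_dvd hm hqp hf hh hb
  rw [mul_one, spec_C] at h3
  have h4 : q ^ m = q ^ (m - 1) * q := by
    rw [← pow_succ, Nat.sub_add_cancel hm]
  rw [h4, mul_dvd_mul_iff_left (pow_ne_zero _ hqp.ne_zero)] at h3
  have h5 : b.eval (-(1 / (m : ℂ))) = 0 := by
    by_contra h0
    exact hq.not_isUnit (isUnit_of_dvd_unit h3 ((isUnit_iff_ne_zero.2 h0).map C))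
  push_cast
  exact h5

/-- A polynomial which vanishes at `p` has an irreducible factor which vanishes at `p`. -/
private lemma exists_irreducible_factor {g : MvPolynomial (Fin n) ℂ} (hg : g ≠ 0)
    {p : Fin n → ℂ} (hp : eval p g = 0) :
    ∃ q, Irreducible q ∧ q ∣ g ∧ eval p q = 0 := by
  obtain ⟨s, hs, ⟨u, hu⟩⟩ := UniqueFactorizationMonoid.exists_prime_factors g hg
  have h1 : eval p s.prod = 0 := by
    have h2 : eval p s.prod * eval p (u : MvPolynomial (Fin n) ℂ) = 0 := by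
      rw [← map_mul, hu, hp]
    exact (mul_eq_zero.1 h2).resolve_right ((u.isUnit.map (eval p)).ne_zero)
  rw [map_multiset_prod, Multiset.prod_eq_zero_iff, Multiset.mem_map] at h1
  obtain ⟨q, hq, hqp⟩ := h1
  exact ⟨q, (hs q hq).irreducible, (Multiset.dvd_prod hq).trans ⟨u, hu.symm⟩, hqp⟩

private lemma grad_of_dvd {q a : MvPolynomial (Fin n) ℂ} {p : Fin n → ℂ} (hq : eval p q = 0)
    (j : Fin n) : eval p (pderiv j (q * a)) = eval p a * eval p (pderiv j q) := by
  rw [pderiv_mul, map_add, map_mul, map_mul, hq, zero_mul, add_zero, mul_comm]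

/-- If `p ∉ S` is a zero of `g_i`, then `-1/m_i` is a root.

Proof.  Let `q` be an irreducible factor of `g_i` with `q(p) = 0` (`g_i ≠ 0` since its gradient at
`p` is not zero).  `q^2 ∤ g_i` since the gradient of `g_i` at `p` is not zero, and `q ∤ g_j` for
`j ≠ i` since otherwise `g_j(p) = 0` and the gradients of `g_i`, `g_j` at `p` are both multiples of
that of `q`.  So the multiplicity of `q` in `∏ g_i ^ m_i` is `m_i`. -/
theorem root_of_snc {ι : Type} [Fintype ι] {g : ι → MvPolynomial (Fin n) ℂ} {m : ι → ℕ}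
    (hm : ∀ i, 0 < m i) {S : Set (Fin n → ℂ)} (hsnc : SncOutside g S) {i : ι} {p : Fin n → ℂ}
    (hp : p ∉ S) (hi : eval p (g i) = 0) :
    IsBernsteinSatoRoot (prodPow g m) (-(1 / (m i : ℚ))) := by
  classical
  have hli := hsnc p hp
  have hgrad : ∃ j, eval p (pderiv j (g i)) ≠ 0 := by
    by_contra h
    have h' : ∀ j, eval p (pderiv j (g i)) = 0 := fun j => by
      by_contra h1
      exact h ⟨j, h1⟩
    have hne := hli.ne_zero ⟨i, hi⟩
    apply hne
    funext j
    exact h' j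
  have hgi : g i ≠ 0 := by
    rintro h
    obtain ⟨j, hj⟩ := hgrad
    rw [h, map_zero, map_zero] at hj
    exact hj rfl
  obtain ⟨q, hq, ⟨a, ha⟩, hqp⟩ := exists_irreducible_factor hgi hi
  have hap : eval p a ≠ 0 := by
    intro h
    obtain ⟨j, hj⟩ := hgrad
    rw [ha, grad_of_dvd hqp, h, zero_mul] at hj
    exact hj rfl
  have hother : ∀ j, j ≠ i → ¬ q ∣ g j := by
    rintro j hji ⟨c, hc⟩
    have hjp : eval p (g j) = 0 := by rw [hc, map_mul, hqp, zero_mul]
    have hIJ : (⟨i, hi⟩ : {i : ι // eval p (g i) = 0}) ≠ ⟨j, hjp⟩ := fun h =>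
      hji (congrArg Subtype.val h).symm
    have h1 := linearIndependent_iff'.1 hli {⟨i, hi⟩, ⟨j, hjp⟩}
      (fun x => if x = ⟨i, hi⟩ then eval p c else -eval p a) (by
        rw [Finset.sum_pair hIJ, if_pos rfl, if_neg hIJ.symm]
        funext l
        simp only [Pi.add_apply, Pi.smul_apply, smul_eq_mul, Pi.zero_apply]
        have e1 : eval p (pderiv l (g i)) = eval p a * eval p (pderiv l q) := by
          rw [ha, grad_of_dvd hqp]
        have e2 : eval p (pderiv l (g j)) = eval p c * eval p (pderiv l q) := by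
          rw [hc, grad_of_dvd hqp]
        rw [e1, e2]
        ring) ⟨j, hjp⟩ (by simp)
    rw [if_neg hIJ.symm, neg_eq_zero] at h1
    exact hap h1
  have hqp' : Prime q := hq.prime
  have hprod : prodPow g m = q ^ m i * (a ^ m i * ∏ j ∈ Finset.univ.erase i, g j ^ m j) := by
    unfold prodPow
    rw [← Finset.mul_prod_erase _ _ (Finset.mem_univ i), ha, mul_pow, mul_assoc]
  refine root_of_mult hq (hm i) ⟨_, hprod⟩ ?_
  intro h
  rw [hprod, pow_succ, mul_dvd_mul_iff_left (pow_ne_zero _ hqp'.ne_zero)] at h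
  rcases hqp'.dvd_or_dvd h with h1 | h1
  · obtain ⟨c, hc⟩ := hqp'.dvd_of_dvd_pow h1
    apply hap
    rw [hc, map_mul, hqp, zero_mul]
  · obtain ⟨j, hj, h2⟩ := (hqp'.dvd_finsetProd_iff _).1 h1
    exact hother j (Finset.ne_of_mem_erase hj) (hqp'.dvd_of_dvd_pow h2)

end MPb07157
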