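import Pool.Agent.Lib.MP_b07157_agE.EG0
import Pool.Agent.Lib.MP_b07157_ag.N3.Cls1

/-!
# Normal crossings: the class of the arcs with prescribed orders along the components
-/

noncomputable section

namespace MPb07157

open MvPolynomial

variable {n : ℕ}

/-! ### First order comparison -/

theorem coeff_mul_of_X_pow_dvd {r : ℕ} (w : PowerSeries ℂ) {u : PowerSeries ℂ}
    (h : (PowerSeries.X : PowerSeries ℂ) ^ r ∣ u) :
    PowerSeries.coeff r (w * u) = PowerSeries.constantCoeff w * PowerSeries.coeff r u := by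
  obtain ⟨v, rfl⟩ := h
  have e1 : ∀ x : PowerSeries ℂ, PowerSeries.coeff r (PowerSeries.X ^ r * x) =
      PowerSeries.constantCoeff x := by
    intro x
    have := PowerSeries.coeff_X_pow_mul x r 0
    rw [zero_add] at this
    rw [this, PowerSeries.coeff_zero_eq_constantCoeff]
  rw [mul_left_comm, e1, e1, map_mul]

theorem constantCoeff_aeval_eq (g : MvPolynomial (Fin n) ℂ) (a : Fin n → PowerSeries ℂ) :
    PowerSeries.constantCoeff (aeval a g) = eval (fun j => PowerSeries.constantCoeff (a j)) g := by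
  induction g using MvPolynomial.induction_on with
  | C z =>
    rw [aeval_C, eval_C]
    simp
  | add g h ihg ihh => rw [map_add, map_add, map_add, ihg, ihh]
  | mul_X g i ih => rw [map_mul, map_mul, map_mul, ih, aeval_X, eval_X]

/-- First order comparison of the values of a polynomial at two families of power series. -/
theorem aeval_sub_mod (g : MvPolynomial (Fin n) ℂ) {a b : Fin n → PowerSeries ℂ}
    {p : Fin n → ℂ} {r : ℕ} (hr : 0 < r) (hb : ∀ j, PowerSeries.constantCoeff (b j) = p j)
    (hab : ∀ j, (PowerSeries.X : PowerSeries ℂ) ^ r ∣ a j - b j) :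
    (PowerSeries.X : PowerSeries ℂ) ^ r ∣ aeval a g - aeval b g ∧
    PowerSeries.coeff r (aeval a g - aeval b g) =
      ∑ j, eval p (pderiv j g) * PowerSeries.coeff r (a j - b j) := by
  have ha : ∀ j, PowerSeries.constantCoeff (a j) = p j := by
    intro j
    have h1 := PowerSeries.X_pow_dvd_iff.1 (hab j) 0 hr
    rw [PowerSeries.coeff_zero_eq_constantCoeff, map_sub, hb j] at h1
    exact sub_eq_zero.1 h1
  induction g using MvPolynomial.induction_on with
  | C z => simp
  | add g h ihg ihh =>
    rw [map_add, map_add, add_sub_add_comm]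
    refine ⟨dvd_add ihg.1 ihh.1, ?_⟩
    rw [map_add, ihg.2, ihh.2, ← Finset.sum_add_distrib]
    refine Finset.sum_congr rfl fun j _ => ?_
    rw [map_add, map_add]
    ring
  | mul_X g i ih =>
    have e : (aeval a (g * X i) - aeval b (g * X i) : PowerSeries ℂ) =
        aeval a g * (a i - b i) + b i * (aeval a g - aeval b g) := by
      rw [map_mul, map_mul, aeval_X, aeval_X]
      ring
    rw [e]
    refine ⟨dvd_add (Dvd.dvd.mul_left (hab i) _) (Dvd.dvd.mul_left ih.1 _), ?_⟩
    rw [map_add, coeff_mul_of_X_pow_dvd _ (hab i), coeff_mul_of_X_pow_dvd _ ih.1, ih.2,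
      constantCoeff_aeval_eq, hb i]
    have e1 : (fun j => PowerSeries.constantCoeff (a j)) = p := funext ha
    rw [e1]
    have e2 : ∀ j, eval p (pderiv j (g * X i)) * PowerSeries.coeff r (a j - b j) =
        p i * (eval p (pderiv j g) * PowerSeries.coeff r (a j - b j)) +
        (if j = i then eval p g * PowerSeries.coeff r (a i - b i) else 0) := by
      intro j
      rw [Derivation.leibniz, pderiv_X]
      by_cases hj : j = i
      · subst hj
        simp
        ring
      · rw [Pi.single_eq_of_ne (Ne.symm hj), if_neg hj]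
        simp
        ring
    rw [Finset.sum_congr rfl fun j _ => e2 j, Finset.sum_add_distrib, Finset.sum_ite_eq',
      if_pos (Finset.mem_univ _), ← Finset.mul_sum]
    ring

/-- Comparison of the values at two jets which agree up to the order `r - 1`. -/
theorem arc_compare (g : MvPolynomial (Fin n) ℂ) {N r : ℕ} (hr0 : 0 < r) (hr : r < N + 1)
    {γ δ : Fin n × Fin (N + 1) → ℂ}
    (h : ∀ j (s : Fin (N + 1)), (s : ℕ) < r → γ (j, s) = δ (j, s)) :
    (∀ s < r, PowerSeries.coeff s (aeval (arc γ) g : PowerSeries ℂ) =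
      PowerSeries.coeff s (aeval (arc δ) g : PowerSeries ℂ)) ∧
    PowerSeries.coeff r (aeval (arc γ) g : PowerSeries ℂ) =
      PowerSeries.coeff r (aeval (arc δ) g : PowerSeries ℂ) +
      ∑ j, eval (fun i => δ (i, 0)) (pderiv j g) * (γ (j, ⟨r, hr⟩) - δ (j, ⟨r, hr⟩)) := by
  have hb : ∀ j, PowerSeries.constantCoeff (arc δ j) = (fun i => δ (i, 0)) j := by
    intro j
    rw [← PowerSeries.coeff_zero_eq_constantCoeff_apply, coeff_arc, dif_pos (Nat.succ_pos N)]
    rfl
  have hab : ∀ j, (PowerSeries.X : PowerSeries ℂ) ^ r ∣ arc γ j - arc δ j := by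
    intro j
    rw [PowerSeries.X_pow_dvd_iff]
    intro s hs
    rw [map_sub, coeff_arc, coeff_arc, dif_pos (by omega : s < N + 1),
      dif_pos (by omega : s < N + 1), h j ⟨s, by omega⟩ hs, sub_self]
  have key := aeval_sub_mod g hr0 hb hab
  constructor
  · intro s hs
    have h1 := PowerSeries.X_pow_dvd_iff.1 key.1 s hs
    rw [map_sub] at h1
    exact sub_eq_zero.1 h1
  · have h1 := key.2
    rw [map_sub, sub_eq_iff_eq_add'] at h1
    rw [h1]
    congr 1
    refine Finset.sum_congr rfl fun j _ => ?_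
    rw [map_sub, coeff_arc, coeff_arc, dif_pos hr, dif_pos hr]

/-! ### The étale change of coordinates on the jets -/

/-- The map on the jets which replaces the coefficients of positive order of `γ` by those of
`G(γ)`. -/
def etPoly (G : Fin n → MvPolynomial (Fin n) ℂ) (N : ℕ) (q : Fin n × Fin (N + 1)) :
    MvPolynomial (Fin n × Fin (N + 1)) ℂ :=
  if q.2 = 0 then X q else (exists_coeff_poly (N := N + 1) (G q.1) (q.2 : ℕ)).choose

theorem polyMap_etPoly_zero (G : Fin n → MvPolynomial (Fin n) ℂ) (N : ℕ)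
    (γ : Fin n × Fin (N + 1) → ℂ) (j : Fin n) :
    polyMap (etPoly G N) γ (j, 0) = γ (j, 0) := by
  unfold polyMap etPoly
  rw [if_pos rfl, eval_X]

theorem polyMap_etPoly_pos (G : Fin n → MvPolynomial (Fin n) ℂ) (N : ℕ)
    (γ : Fin n × Fin (N + 1) → ℂ) (j : Fin n) {r : Fin (N + 1)} (hr : r ≠ 0) :
    polyMap (etPoly G N) γ (j, r) =
      PowerSeries.coeff (r : ℕ) (aeval (arc γ) (G j) : PowerSeries ℂ) := by
  unfold polyMap etPoly
  rw [if_neg hr]
  exact ((exists_coeff_poly (N := N + 1) (G j) (r : ℕ)).choose_spec γ).symm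

theorem bijOn_etPoly {G : Fin n → MvPolynomial (Fin n) ℂ} {W : Set (Fin n → ℂ)}
    (hG : ∀ p ∈ W, ∀ u : Fin n → ℂ, (∀ j, ∑ j', eval p (pderiv j' (G j)) * u j' = 0) → u = 0)
    (N : ℕ) : Set.BijOn (polyMap (etPoly G N)) (AtW W N) (AtW W N) := by
  have hbase : ∀ γ : Fin n × Fin (N + 1) → ℂ,
      (fun i => polyMap (etPoly G N) γ (i, 0)) = fun i => γ (i, 0) := by
    intro γ
    funext i
    rw [polyMap_etPoly_zero]
  refine ⟨?_, ?_, ?_⟩
  · intro γ hγ
    show (fun i => polyMap (etPoly G N) γ (i, 0)) ∈ W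
    rw [hbase]
    exact hγ
  · intro γ hγ δ hδ h
    have h0 : (fun i => γ (i, 0)) = fun i => δ (i, 0) := by
      rw [← hbase γ, ← hbase δ, h]
    have key : ∀ r : ℕ, ∀ j (s : Fin (N + 1)), (s : ℕ) < r → γ (j, s) = δ (j, s) := by
      intro r
      induction r with
      | zero => intro j s hs; omega
      | succ r ih =>
        intro j s hs
        rcases Nat.lt_or_ge (s : ℕ) r with h1 | h1
        · exact ih j s h1
        · have hsr : (s : ℕ) = r := by omega
          by_cases hr0 : r = 0
          · have hs0 : s = 0 := Fin.ext (by rw [hsr, hr0]; rfl)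
            rw [hs0]
            exact congrFun h0 j
          · have hr : r < N + 1 := by have := s.2; omega
            have hs' : s = ⟨r, hr⟩ := Fin.ext hsr
            have hsne : (⟨r, hr⟩ : Fin (N + 1)) ≠ 0 := by
              intro h
              exact hr0 (congrArg Fin.val h)
            have hu := hG _ hδ (fun j => γ (j, ⟨r, hr⟩) - δ (j, ⟨r, hr⟩)) (by
              intro i
              have h2 := (arc_compare (G i) (Nat.pos_of_ne_zero hr0) hr ih).2
              have h3 := congrFun h (i, ⟨r, hr⟩)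
              rw [polyMap_etPoly_pos G N γ i hsne, polyMap_etPoly_pos G N δ i hsne] at h3
              simp only at h3
              rw [h3] at h2
              exact left_eq_add.1 h2)
            have h4 := congrFun hu j
            rw [hs']
            exact sub_eq_zero.1 h4
    funext ⟨j, s⟩
    exact key (N + 1) j s s.2
  · intro δ hδ
    have key : ∀ r : ℕ, r < N + 1 → ∃ γ ∈ AtW W N, ∀ j (s : Fin (N + 1)), (s : ℕ) ≤ r →
        polyMap (etPoly G N) γ (j, s) = δ (j, s) := by
      intro r
      induction r with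
      | zero =>
        intro _
        refine ⟨δ, hδ, fun j s hs => ?_⟩
        have hs0 : s = 0 := Fin.ext (by simpa using hs)
        rw [hs0, polyMap_etPoly_zero]
      | succ r ih =>
        intro hr
        obtain ⟨γ, hγ, h1⟩ := ih (by omega)
        set A : (Fin n → ℂ) →ₗ[ℂ] (Fin n → ℂ) :=
          LinearMap.pi fun j => ∑ j', (eval (fun i => γ (i, 0)) (pderiv j' (G j))) •
            (LinearMap.proj j' : (Fin n → ℂ) →ₗ[ℂ] ℂ) with hA
        have hAu : ∀ u j, A u j = ∑ j', eval (fun i => γ (i, 0)) (pderiv j' (G j)) * u j' := by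
          intro u j
          simp [hA]
        have hinj : Function.Injective A := by
          rw [← LinearMap.ker_eq_bot, LinearMap.ker_eq_bot']
          intro u hu
          refine hG _ hγ u fun j => ?_
          rw [← hAu, hu]
          rfl
        obtain ⟨u, hu⟩ := (LinearMap.injective_iff_surjective.1 hinj)
          (fun j => δ (j, ⟨r + 1, hr⟩) - polyMap (etPoly G N) γ (j, ⟨r + 1, hr⟩))
        set γ' : Fin n × Fin (N + 1) → ℂ := fun q =>
          if q.2 = ⟨r + 1, hr⟩ then γ q + u q.1 else γ q with hγ'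
        have hagree : ∀ j (s : Fin (N + 1)), (s : ℕ) < r + 1 → γ' (j, s) = γ (j, s) := by
          intro j s hs
          rw [hγ']
          simp only
          rw [if_neg]
          intro h
          have := congrArg Fin.val h
          simp only at this
          omega
        have hb : (fun i => γ' (i, 0)) = fun i => γ (i, 0) :=
          funext fun i => hagree i 0 (by simp)
        refine ⟨γ', ?_, fun j s hs => ?_⟩
        · show (fun i => γ' (i, 0)) ∈ W
          rw [hb]
          exact hγ
        · rcases Nat.lt_or_ge (s : ℕ) (r + 1) with h2 | h2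
          · rw [← h1 j s (by omega)]
            by_cases hs0 : s = 0
            · rw [hs0, polyMap_etPoly_zero, polyMap_etPoly_zero]
              exact congrFun hb j
            · rw [polyMap_etPoly_pos G N _ j hs0, polyMap_etPoly_pos G N _ j hs0]
              exact (arc_compare (G j) (Nat.succ_pos r) hr hagree).1 _ h2
          · have hs' : s = ⟨r + 1, hr⟩ := Fin.ext (by simp only; omega)
            have hsne : (⟨r + 1, hr⟩ : Fin (N + 1)) ≠ 0 := by
              intro h
              have := congrArg Fin.val h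
              simp at this
            rw [hs', polyMap_etPoly_pos G N _ j hsne]
            have h3 := (arc_compare (G j) (Nat.succ_pos r) hr hagree).2
            simp only
            rw [h3]
            have h4 : ∑ j', eval (fun i => γ (i, 0)) (pderiv j' (G j)) *
                (γ' (j', ⟨r + 1, hr⟩) - γ (j', ⟨r + 1, hr⟩)) = A u j := by
              rw [hAu]
              refine Finset.sum_congr rfl fun j' _ => ?_
              rw [hγ']
              simp
            rw [h4, hu]
            show PowerSeries.coeff (r + 1) (aeval (arc γ) (G j) : PowerSeries ℂ) +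
              (δ (j, ⟨r + 1, hr⟩) - polyMap (etPoly G N) γ (j, ⟨r + 1, hr⟩)) = _
            rw [polyMap_etPoly_pos G N γ j hsne]
            exact add_sub_cancel _ _
    obtain ⟨γ, hγ, h1⟩ := key N (Nat.lt_succ_self N)
    exact ⟨γ, hγ, funext fun q => h1 q.1 q.2 (Nat.lt_succ_iff.1 q.2.2)⟩

/-! ### The class -/

/-- The jets at `W` along which `g i` has order `k i`. -/
def ordW {J : Type} (g : J → MvPolynomial (Fin n) ℂ) (W : Set (Fin n → ℂ)) (N : ℕ) (k : J → ℕ) :
    Set (Fin n × Fin (N + 1) → ℂ) :=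
  {γ | γ ∈ AtW W N ∧ ∀ i, (aeval (arc γ) (g i) : PowerSeries ℂ).order = (k i : ℕ∞)}

theorem isConstr_ordW {J : Type} [Fintype J] (g : J → MvPolynomial (Fin n) ℂ)
    {W : Set (Fin n → ℂ)} (hW : IsConstr W) (N : ℕ) (k : J → ℕ) : IsConstr (ordW g W N k) := by
  refine isConstr_setOf_and (isConstr_AtW hW N) ?_
  have h := isConstr_forall_mem (σ := Fin n × Fin (N + 1)) Finset.univ
    (fun (i : J) γ => (aeval (arc γ) (g i) : PowerSeries ℂ).order = (k i : ℕ∞))
    (fun i _ => isConstr_arcs (g i) (N + 1) (k i))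
  simpa using h

/-- The target of the change of coordinates. -/
def cellW {J : Type} (W : Set (Fin n → ℂ)) (c : J → Fin n) (N : ℕ) (k : J → ℕ) :
    Set (Fin n × Fin (N + 1) → ℂ) :=
  {δ | δ ∈ AtW W N ∧ ∀ i, (∀ r : Fin (N + 1), r ≠ 0 → (r : ℕ) < k i → δ (c i, r) = 0) ∧
    ∀ r : Fin (N + 1), (r : ℕ) = k i → δ (c i, r) ≠ 0}

/-- The coordinates. -/
def etG {J : Type} (g : J → MvPolynomial (Fin n) ℂ) (c : J → Fin n) (j : Fin n) :
    MvPolynomial (Fin n) ℂ := by
  classical
  exact if h : ∃ i, c i = j then g h.choose else X j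

theorem etG_apply {J : Type} (g : J → MvPolynomial (Fin n) ℂ) {c : J → Fin n}
    (hc : Function.Injective c) (i : J) : etG g c (c i) = g i := by
  classical
  have h : ∃ i', c i' = c i := ⟨i, rfl⟩
  unfold etG
  rw [dif_pos h, hc h.choose_spec]

theorem etG_of_not {J : Type} (g : J → MvPolynomial (Fin n) ℂ) {c : J → Fin n} {j : Fin n}
    (h : ¬ ∃ i, c i = j) : etG g c j = X j := by
  classical
  unfold etG
  rw [dif_neg h]

theorem etG_nondeg {J : Type} [Fintype J] [DecidableEq J] {g : J → MvPolynomial (Fin n) ℂ}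
    {c : J → Fin n} (hc : Function.Injective c) {p : Fin n → ℂ}
    (hdet : (Matrix.of fun i j => eval p (pderiv (c j) (g i))).det ≠ 0) (u : Fin n → ℂ)
    (hu : ∀ j, ∑ j', eval p (pderiv j' (etG g c j)) * u j' = 0) : u = 0 := by
  have h1 : ∀ j, (¬ ∃ i, c i = j) → u j = 0 := by
    intro j hj
    have h2 := hu j
    rw [etG_of_not g hj] at h2
    rw [Finset.sum_eq_single j] at h2
    · simpa using h2
    · intro j' _ hj'
      rw [pderiv_X, Pi.single_eq_of_ne (Ne.symm hj')]
      simp
    · intro h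
      exact absurd (Finset.mem_univ _) h
  have h2 : (fun i => u (c i)) = 0 := by
    apply Matrix.eq_zero_of_mulVec_eq_zero hdet
    funext i
    have h3 := hu (c i)
    rw [etG_apply g hc] at h3
    rw [Matrix.mulVec, dotProduct]
    simp only [Matrix.of_apply, Pi.zero_apply]
    rw [← h3]
    rw [← Finset.sum_image (f := fun j' => eval p (pderiv j' (g i)) * u j') (s := Finset.univ)
      (g := c) (fun a _ b _ h => hc h)]
    refine Finset.sum_subset (Finset.subset_univ _) fun j' _ hj' => ?_
    rw [h1 j', mul_zero]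
    rintro ⟨i', rfl⟩
    exact hj' (Finset.mem_image_of_mem _ (Finset.mem_univ _))
  funext j
  by_cases hj : ∃ i, c i = j
  · obtain ⟨i, rfl⟩ := hj
    exact congrFun h2 i
  · exact h1 j hj

theorem bijOn_ordW {J : Type} [Fintype J] [DecidableEq J] {g : J → MvPolynomial (Fin n) ℂ}
    {W : Set (Fin n → ℂ)} {c : J → Fin n} (hc : Function.Injective c)
    (hz : ∀ p ∈ W, ∀ i, eval p (g i) = 0)
    (hdet : ∀ p ∈ W, (Matrix.of fun i j => eval p (pderiv (c j) (g i))).det ≠ 0) {N : ℕ}
    {k : J → ℕ} (hk : ∀ i, 1 ≤ k i) (hkN : ∀ i, k i ≤ N) :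
    Set.BijOn (polyMap (etPoly (etG g c) N)) (ordW g W N k) (cellW W c N k) := by
  have hB := bijOn_etPoly (G := etG g c) (W := W)
    (fun p hp u hu => etG_nondeg hc (hdet p hp) u hu) N
  have hiff : ∀ γ ∈ AtW W N, γ ∈ ordW g W N k ↔
      polyMap (etPoly (etG g c) N) γ ∈ cellW W c N k := by
    intro γ hγ
    have hval : ∀ (i : J) (r : Fin (N + 1)), r ≠ 0 →
        polyMap (etPoly (etG g c) N) γ (c i, r) =
          PowerSeries.coeff (r : ℕ) (aeval (arc γ) (g i) : PowerSeries ℂ) := by
      intro i r hr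
      rw [polyMap_etPoly_pos _ _ _ _ hr, etG_apply g hc]
    have hz' : ∀ i, PowerSeries.coeff 0 (aeval (arc γ) (g i) : PowerSeries ℂ) = 0 := by
      intro i
      rw [PowerSeries.coeff_zero_eq_constantCoeff, constantCoeff_aeval_eq]
      have e : (fun j => PowerSeries.constantCoeff (arc γ j)) = fun i => γ (i, 0) := by
        funext j
        rw [← PowerSeries.coeff_zero_eq_constantCoeff_apply, coeff_arc,
          dif_pos (Nat.succ_pos N)]
        rfl
      rw [e]
      exact hz _ hγ i
    have hord : ∀ i, (aeval (arc γ) (g i) : PowerSeries ℂ).order = (k i : ℕ∞) ↔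
        (∀ r : Fin (N + 1), r ≠ 0 → (r : ℕ) < k i →
          polyMap (etPoly (etG g c) N) γ (c i, r) = 0) ∧
        ∀ r : Fin (N + 1), (r : ℕ) = k i → polyMap (etPoly (etG g c) N) γ (c i, r) ≠ 0 := by
      intro i
      rw [PowerSeries.order_eq_nat]
      constructor
      · rintro ⟨h1, h2⟩
        refine ⟨fun r hr hrk => ?_, fun r hr => ?_⟩
        · rw [hval i r hr]
          exact h2 _ hrk
        · have hr0 : r ≠ 0 := by
            rintro rfl
            have := hk i
            simp at hr
            omega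
          rw [hval i r hr0, hr]
          exact h1
      · rintro ⟨h1, h2⟩
        constructor
        · have h3 := h2 ⟨k i, Nat.lt_succ_of_le (hkN i)⟩ rfl
          rw [hval i _ (by
            intro h
            have := congrArg Fin.val h
            have h5 := hk i
            simp at this
            omega)] at h3
          exact h3
        · intro r hr
          by_cases hr0 : r = 0
          · rw [hr0]
            exact hz' i
          · have h4 : r < N + 1 := by have := hkN i; omega
            have h3 := h1 ⟨r, h4⟩ (by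
              intro h
              exact hr0 (congrArg Fin.val h)) hr
            rw [hval i _ (by
              intro h
              exact hr0 (congrArg Fin.val h))] at h3
            exact h3
    unfold ordW cellW
    simp only [Set.mem_ofPred_eq]
    constructor
    · rintro ⟨_, h2⟩
      exact ⟨hB.mapsTo hγ, fun i => (hord i).1 (h2 i)⟩
    · rintro ⟨_, h2⟩
      exact ⟨hγ, fun i => (hord i).2 (h2 i)⟩
  refine ⟨fun γ hγ => (hiff γ hγ.1).1 hγ, fun γ hγ δ hδ h => hB.injOn hγ.1 hδ.1 h, ?_⟩
  intro δ hδ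
  obtain ⟨γ, hγ, rfl⟩ := hB.surjOn hδ.1
  exact ⟨γ, (hiff γ hγ).2 hδ, rfl⟩


theorem isConstr_cellW {J : Type} [Fintype J] {W : Set (Fin n → ℂ)} (hW : IsConstr W)
    (c : J → Fin n) (N : ℕ) (k : J → ℕ) : IsConstr (cellW W c N k) := by
  refine isConstr_setOf_and (isConstr_AtW hW N) ?_
  have h := isConstr_forall_mem (σ := Fin n × Fin (N + 1)) Finset.univ
    (fun (i : J) (δ : Fin n × Fin (N + 1) → ℂ) =>
      (∀ r : Fin (N + 1), r ≠ 0 → (r : ℕ) < k i → δ (c i, r) = 0) ∧
        ∀ r : Fin (N + 1), (r : ℕ) = k i → δ (c i, r) ≠ 0)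
    (fun i _ => by
      refine isConstr_setOf_and ?_ ?_
      · have h1 := isConstr_forall_mem (σ := Fin n × Fin (N + 1)) Finset.univ
          (fun (r : Fin (N + 1)) (δ : Fin n × Fin (N + 1) → ℂ) =>
            r ≠ 0 → (r : ℕ) < k i → δ (c i, r) = 0)
          (fun r _ => isConstr_setOf_imp (isConstr_const _) (isConstr_setOf_imp (isConstr_const _)
            (by
              have := isConstr_eq_zero (X (c i, r) : MvPolynomial (Fin n × Fin (N + 1)) ℂ)
              simpa using this)))
        simpa using h1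
      · have h1 := isConstr_forall_mem (σ := Fin n × Fin (N + 1)) Finset.univ
          (fun (r : Fin (N + 1)) (δ : Fin n × Fin (N + 1) → ℂ) =>
            (r : ℕ) = k i → δ (c i, r) ≠ 0)
          (fun r _ => isConstr_setOf_imp (isConstr_const _)
            (by
              have := isConstr_ne_zero (X (c i, r) : MvPolynomial (Fin n × Fin (N + 1)) ℂ)
              simpa using this))
        simpa using h1)
  simpa using h

/-- The positions of the vanishing coordinates. -/
def zPos {J : Type} (c : J → Fin n) (N : ℕ) (k : J → ℕ) : Finset (Fin n × Fin (N + 1)) := by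
  classical
  exact Finset.univ.filter fun q => ∃ i, c i = q.1 ∧ q.2 ≠ 0 ∧ (q.2 : ℕ) < k i

theorem mem_zPos {J : Type} {c : J → Fin n} {N : ℕ} {k : J → ℕ} {q : Fin n × Fin (N + 1)} :
    q ∈ zPos c N k ↔ ∃ i, c i = q.1 ∧ q.2 ≠ 0 ∧ (q.2 : ℕ) < k i := by
  classical
  unfold zPos
  rw [Finset.mem_filter]
  simp only [Finset.mem_univ, true_and]

theorem card_zPos {J : Type} [Fintype J] {c : J → Fin n} (hc : Function.Injective c) {N : ℕ}
    {k : J → ℕ} (hkN : ∀ i, k i ≤ N) : (zPos c N k).card = ∑ i, (k i - 1) := by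
  classical
  have h1 : (Finset.univ : Finset (Σ i : J, Fin (k i - 1))).card = ∑ i, (k i - 1) := by
    rw [Finset.card_univ, Fintype.card_sigma]
    simp
  rw [← h1]
  symm
  refine Finset.card_bij (fun x _ => (c x.1, ⟨x.2 + 1, by
    have h2 := x.2.2
    have h3 := hkN x.1
    omega⟩)) ?_ ?_ ?_
  · rintro ⟨i, r⟩ _
    rw [mem_zPos]
    refine ⟨i, rfl, ?_, ?_⟩
    · intro h
      have := congrArg Fin.val h
      simp at this
    · have := r.2
      simp only
      omega
  · rintro ⟨i, r⟩ _ ⟨i', r'⟩ _ h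
    rw [Prod.mk.injEq] at h
    obtain ⟨h2, h3⟩ := h
    have h4 : i = i' := hc h2
    subst h4
    have h5 := congrArg Fin.val h3
    simp only at h5
    have h6 : r = r' := Fin.ext (by omega)
    rw [h6]
  · rintro ⟨j, r⟩ h
    rw [mem_zPos] at h
    obtain ⟨i, h2, h3, h4⟩ := h
    simp only at h2 h3 h4
    have h5 : 1 ≤ (r : ℕ) := Nat.one_le_iff_ne_zero.2 fun h => h3 (Fin.ext h)
    refine ⟨⟨i, ⟨(r : ℕ) - 1, by omega⟩⟩, Finset.mem_univ _, ?_⟩
    simp only
    rw [h2]
    congr 1
    exact Fin.ext (by simp only; omega)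

theorem cls_cellW {J : Type} [Fintype J] {W : Set (Fin n → ℂ)} (hW : IsConstr W)
    {c : J → Fin n} (hc : Function.Injective c) {N : ℕ} {k : J → ℕ} (hk : ∀ i, 1 ≤ k i)
    (hkN : ∀ i, k i ≤ N) {M : ℕ} (hM : M + ∑ i, k i = n * N) :
    cls (cellW W c N k) = cls W * (L - 1) ^ Fintype.card J * L ^ M := by
  classical
  have hT : IsConstr {x : J → ℂ | ∀ j, x j ≠ 0} := by
    have h := isConstr_forall_mem (σ := J) Finset.univ
      (fun j u => u j ≠ 0) (fun j _ => by
        have := isConstr_ne_zero (X j : MvPolynomial J ℂ)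
        simpa using this)
    simpa using h
  let e : Fin n ⊕ J → Fin n × Fin (N + 1) :=
    Sum.elim (fun i => (i, 0)) fun i => (c i, ⟨k i, Nat.lt_succ_of_le (hkN i)⟩)
  have he : Function.Injective e := by
    rintro (a | a) (b | b) h
    · exact congrArg Sum.inl (congrArg Prod.fst h)
    · exfalso
      have h1 := congrArg Fin.val (congrArg Prod.snd h)
      have h2 := hk b
      simp [e] at h1
      omega
    · exfalso
      have h1 := congrArg Fin.val (congrArg Prod.snd h)
      have h2 := hk a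
      simp [e] at h1
      omega
    · exact congrArg Sum.inr (hc (congrArg Prod.fst h))
  have hZ : ∀ i, e i ∉ zPos c N k := by
    rintro (a | a) h
    · rw [mem_zPos] at h
      obtain ⟨_, _, h2, _⟩ := h
      exact h2 rfl
    · rw [mem_zPos] at h
      obtain ⟨i, h1, _, h2⟩ := h
      have h3 : i = a := hc h1
      rw [h3] at h2
      simp [e] at h2
  have hsum : ∑ i, (k i - 1) + Fintype.card J = ∑ i, k i := by
    have : ∑ i : J, k i = ∑ i : J, ((k i - 1) + 1) :=
      Finset.sum_congr rfl fun i _ => (Nat.sub_add_cancel (hk i)).symm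
    rw [this, Finset.sum_add_distrib]
    simp
  have h := cls_cell e he (prodSum W {x : J → ℂ | ∀ j, x j ≠ 0}) (isConstr_prodSum hW hT)
    (zPos c N k) hZ M (by
      rw [card_zPos hc hkN, Fintype.card_prod, Fintype.card_sum, Fintype.card_fin,
        Fintype.card_fin, mul_add, mul_one]
      omega)
  rw [cls_prodSum hW hT, cls_torus] at h
  rw [← h]
  congr 1
  ext δ
  simp only [cellW, Set.mem_ofPred_eq, prodSum, AtW]
  constructor
  · rintro ⟨h1, h2⟩
    refine ⟨⟨h1, fun i => (h2 i).2 _ rfl⟩, fun q hq => ?_⟩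
    rw [mem_zPos] at hq
    obtain ⟨i, h3, h4, h5⟩ := hq
    have h6 := (h2 i).1 q.2 h4 h5
    rw [h3] at h6
    exact h6
  · rintro ⟨⟨h1, h2⟩, h3⟩
    refine ⟨h1, fun i => ⟨fun r hr hr' => ?_, fun r hr => ?_⟩⟩
    · exact h3 (c i, r) (mem_zPos.2 ⟨i, rfl, hr, hr'⟩)
    · have h4 : r = ⟨k i, Nat.lt_succ_of_le (hkN i)⟩ := Fin.ext hr
      rw [h4]
      exact h2 i

theorem cls_ordW {J : Type} [Fintype J] [DecidableEq J] {g : J → MvPolynomial (Fin n) ℂ}
    {W : Set (Fin n → ℂ)} (hW : IsConstr W) {c : J → Fin n} (hc : Function.Injective c)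
    (hz : ∀ p ∈ W, ∀ i, eval p (g i) = 0)
    (hdet : ∀ p ∈ W, (Matrix.of fun i j => eval p (pderiv (c j) (g i))).det ≠ 0) {N : ℕ}
    {k : J → ℕ} (hk : ∀ i, 1 ≤ k i) (hkN : ∀ i, k i ≤ N) {M : ℕ}
    (hM : M + ∑ i, k i = n * N) :
    cls (ordW g W N k) = cls W * (L - 1) ^ Fintype.card J * L ^ M := by
  rw [← cls_cellW hW hc hk hkN hM]
  exact cls_bijOn (isConstr_ordW g hW N k) (isConstr_cellW hW c N k) (etPoly (etG g c) N)
    (bijOn_ordW hc hz hdet hk hkN)

attribute [local irreducible] K0.instCommRing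

/-- The motivic measure of the arcs at `W` along which `g i` has order `k i`, if the hypersurfaces
`g i = 0` contain `W` and cross normally at the points of `W`. -/
theorem clsM_ordW {J : Type} [Fintype J] [DecidableEq J] {g : J → MvPolynomial (Fin n) ℂ}
    {W : Set (Fin n → ℂ)} (hW : IsConstr W) {c : J → Fin n} (hc : Function.Injective c)
    (hz : ∀ p ∈ W, ∀ i, eval p (g i) = 0)
    (hdet : ∀ p ∈ W, (Matrix.of fun i j => eval p (pderiv (c j) (g i))).det ≠ 0) {N : ℕ}
    {k : J → ℕ} (hk : ∀ i, 1 ≤ k i) (hkN : ∀ i, k i ≤ N) :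
    ↑((LU ^ (n * (N + 1)))⁻¹) * clsM (ordW g W N k) =
      ↑((LU ^ n)⁻¹) * clsM W * ((LU : Mot) - 1) ^ Fintype.card J *
        (↑(LU⁻¹) : Mot) ^ (∑ i, k i) := by
  have hle : ∑ i, k i ≤ n * N := by
    calc ∑ i, k i ≤ ∑ _i : J, N := Finset.sum_le_sum fun i _ => hkN i
      _ = Fintype.card J * N := by simp
      _ ≤ n * N := by
        refine Nat.mul_le_mul_right N ?_
        have := Fintype.card_le_of_injective c hc
        simpa using this
  obtain ⟨M, hM⟩ := Nat.exists_eq_add_of_le' hle
  have h1 := cls_ordW hW hc hz hdet hk hkN hM.symm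
  have h2 : clsM (ordW g W N k) =
      clsM W * ((LU : Mot) - 1) ^ Fintype.card J * (LU : Mot) ^ M := by
    unfold clsM
    rw [h1, map_mul, map_mul, map_pow, map_pow, map_sub, map_one, ← LU_val]
  have h3 : (↑((LU ^ (n * (N + 1)))⁻¹) : Mot) * (LU : Mot) ^ M =
      ↑((LU ^ n)⁻¹) * (↑(LU⁻¹) : Mot) ^ (∑ i, k i) := by
    rw [← Units.val_pow_eq_pow_val, ← Units.val_pow_eq_pow_val, ← Units.val_mul,
      ← Units.val_mul]
    congr 1
    rw [mul_add n N 1, mul_one, hM, inv_pow, pow_add, pow_add]
    rw [mul_inv, mul_inv, mul_comm (LU ^ M)⁻¹, mul_right_comm, mul_assoc _ (LU ^ M)⁻¹,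
      inv_mul_cancel, mul_one, mul_comm]
  rw [h2]
  calc _ = (↑((LU ^ (n * (N + 1)))⁻¹) * (LU : Mot) ^ M) *
        (clsM W * ((LU : Mot) - 1) ^ Fintype.card J) := by ring
    _ = _ := by rw [h3]; ring

end MPb07157
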