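import Pool.Agent.Lib.MP_b07157_agS.SMain

/-!
# Hypersurfaces with normal crossings outside a finite set: definitions
-/

noncomputable section

namespace MPb07157

open MvPolynomial

variable {n : ℕ}

/-- The hypersurfaces `g_i = 0` are smooth and cross normally at the points outside `S`: at each
point `p ∉ S` the gradients of the `g_i` which vanish at `p` are linearly independent. -/
def SncOutside {ι : Type} (g : ι → MvPolynomial (Fin n) ℂ) (S : Set (Fin n → ℂ)) : Prop :=
  ∀ p ∉ S, LinearIndependent ℂ fun (i : {i : ι // eval p (g i) = 0}) (j : Fin n) =>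
    eval p (pderiv j (g i))

/-- The polynomial `∏ g_i ^ m_i`. -/
def prodPow {ι : Type} [Fintype ι] (g : ι → MvPolynomial (Fin n) ℂ) (m : ι → ℕ) :
    MvPolynomial (Fin n) ℂ := ∏ i, g i ^ m i

end MPb07157
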